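import Mathlib
import Pool.Agent.Work.MP_497bf6_gt.K0
import Pool.Agent.Work.MP_497bf6_gt.K1
import Pool.Agent.Work.MP_497bf6_gt.Track
import Pool.Agent.Work.MP_497bf6_gt.Chk.A29
import Pool.Agent.Work.MP_497bf6_gt.Chk.A30
import Pool.Agent.Work.MP_497bf6_gt.Chk.A31
import Pool.Agent.Work.MP_497bf6_gt.Chk.A32
import Pool.Agent.Work.MP_497bf6_gt.Chk.I2
import Pool.Agent.Work.MP_497bf6_gt.Chk.I3

-- merged part: Pool.Agent.Work.MP_497bf6_gt.GDef
section
/-! Packed affine maps of the space `V`: definitions and the programs that the kernel runs.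
A block is a number `a` with digits in base `X = 2 ^ 20`; the low four bits of digit `9 i + k` (of digit `72 + 9 i + k`)
minus eight give the real (imaginary) part of the entry `(i, k)`, `i < 8`, `k < 9`; digit `144` gives the source block. -/

namespace Pool.Agent.IvT

abbrev V := EuclideanSpace ℂ (Fin 28 × Fin 8)

theorem frc_eq (x : ℕ) (f : ℕ → Bool) : frc x f = f x := by cases x <;> rfl
theorem bnd_eq (a b : Bool) : bnd a b = (a && b) := by cases a <;> rfl
theorem allLt_iff (n : ℕ) (f : ℕ → Bool) : allLt n f = true ↔ ∀ i, i < n → f i = true := by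
  induction n with
  | zero => simp [allLt]
  | succ n ih =>
    have : allLt (n + 1) f = bnd (f n) (allLt n f) := rfl
    rw [this, bnd_eq, Bool.and_eq_true, ih]
    constructor
    · rintro ⟨h1, h2⟩ i hi
      rcases Nat.lt_succ_iff_lt_or_eq.1 hi with h | rfl
      · exact h2 i h
      · exact h1
    · exact fun h => ⟨h n (Nat.lt_succ_self n), fun i hi => h i (Nat.lt_succ_of_lt hi)⟩
theorem Tr.all_get {c : ℕ → Bool} {t : Tr} (h : t.all c = true) (i : ℕ) : c (t.get i) = true := by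
  induction t with
  | lf a => exact h
  | nd p l r ihl ihr =>
    have e : (Tr.nd p l r).all c = bnd (l.all c) (r.all c) := rfl
    rw [e, bnd_eq, Bool.and_eq_true] at h
    have e2 : (Tr.nd p l r).get i = Bool.rec (l.get i) (r.get i) (Nat.ble p i) := rfl
    rw [e2]
    cases Nat.ble p i
    · exact ihl h.1
    · exact ihr h.2
theorem Tr.all_nd {c : ℕ → Bool} {l r : Tr} (p : ℕ) (hl : l.all c = true) (hr : r.all c = true) :
    (Tr.nd p l r).all c = true := by
  have e : (Tr.nd p l r).all c = bnd (l.all c) (r.all c) := rfl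
  rw [e, hl, hr]; rfl

/-- The low four bits of digit `t`. -/
def dig (a t : ℕ) : ℕ := a / 2 ^ (20 * t) % 16
/-- An entry of a block. -/
def ent (a i k : ℕ) : GaussianInt :=
  ⟨(dig a (9 * i + k) : ℤ) - 8, (dig a (72 + 9 * i + k) : ℤ) - 8⟩
theorem sbk_lt (a : ℕ) : sbk a < 28 := Nat.mod_lt _ (by norm_num)

/-- The affine map with blocks `d 0, .., d 27`. -/
noncomputable def fmap (d : ℕ → ℕ) : V → V := fun v => WithLp.toLp 2 fun x =>
  (∑ j : Fin 8, GaussianInt.toComplex (ent (d x.1) x.2 j) * v (⟨sbk (d x.1), sbk_lt _⟩, j)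
    + GaussianInt.toComplex (ent (d x.1) x.2 8)) / 4

/-- Equality test. -/
def geq (z w : GaussianInt) : Bool := decide (z.re = w.re) && decide (z.im = w.im)
theorem geq_iff (z w : GaussianInt) : geq z w = true ↔ z = w := by
  simp [geq, Zsqrtd.ext_iff]

/-- Check that row `i` of block `p` is the row of the identity, with translation entry `z`. -/
noncomputable def rowIs (d : ℕ → ℕ) (p i : ℕ) (z : GaussianInt) : Bool :=
  bnd (Nat.beq (sbk (d p)) p) (bnd (geq (ent (d p) i 8) z)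
    (allLt 8 fun j => geq (ent (d p) i j) (if j = i then 4 else 0)))

/-- Check that the linear part is unitary: the blocks are unitary up to the factor four and the
source map is inverted by the source map of `d'`. -/
noncomputable def chkU (d d' : ℕ → ℕ) : Bool :=
  allLt 28 fun p => frc (d p) fun A => bnd (Nat.beq (sbk (d' (sbk A))) p)
    (allLt 8 fun j => allLt 8 fun k =>
      geq ((List.range 8).map fun i => star (ent A i j) * ent A i k).sum (if j = k then 16 else 0))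

end Pool.Agent.IvT
end

-- merged part: Pool.Agent.Work.MP_497bf6_gt.Key
section
/-! Words of labels coded as numbers in base `1024`. -/

namespace Pool.Agent.IvT

theorem frn_eq (x : ℕ) (f : ℕ → ℕ) : frn x f = f x := by cases x <;> rfl
theorem cn_eq (b : Bool) (x y : ℕ) : cn b x y = if b = true then x else y := by cases b <;> rfl
theorem cb_eq (b x y : Bool) : cb b x y = if b = true then x else y := by cases b <;> rfl
theorem bor_eq (a b : Bool) : bor a b = (a || b) := by cases a <;> rfl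
theorem land_1023 (k : ℕ) : Nat.land k 1023 = k % 1024 := Nat.and_two_pow_sub_one_eq_mod k 10
theorem land_15 (k : ℕ) : Nat.land k 15 = k % 16 := Nat.and_two_pow_sub_one_eq_mod k 4
theorem land_1 (k : ℕ) : Nat.land k 1 = k % 2 := Nat.and_two_pow_sub_one_eq_mod k 1
theorem shr_eq (k s : ℕ) : Nat.shiftRight k s = k / 2 ^ s := Nat.shiftRight_eq_div_pow k s
theorem shl_eq (k s : ℕ) : Nat.shiftLeft k s = k * 2 ^ s := Nat.shiftLeft_eq k s
theorem iv_lt {x : ℕ} (h : x < 1024) : iv x < 1024 := Nat.xor_lt_two_pow (n := 10) h (by norm_num)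
theorem iv_iv (x : ℕ) : iv (iv x) = x := Nat.xor_xor_cancel_right x 1
theorem dk_eq (k i : ℕ) : dk k i = k / 2 ^ i % 1024 := by rw [dk, land_1023, shr_eq]
theorem dk_lt (k i : ℕ) : dk k i < 1024 := by rw [dk_eq]; omega
theorem lb_lt (w : ℕ) : lb w < 1024 := by rw [lb, land_1023]; omega

variable {G : Type} [Group G]

/-- Labels: two names for the identity, and inverse pairs. -/
structure Lab (gl : ℕ → G) : Prop where
  zero : gl 0 = 1
  one : gl 1 = 1
  inv : ∀ x, gl (iv x) = (gl x)⁻¹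

/-- The product of the labels given by the digits of `k`. -/
def Wd (gl : ℕ → G) (k : ℕ) : G := ((Nat.digits 1024 k).map gl).prod

variable {gl : ℕ → G}

theorem Wd_zero : Wd gl 0 = 1 := by simp [Wd]
theorem Lab.wd (h : Lab gl) (k : ℕ) : Wd gl k = gl (k % 1024) * Wd gl (k / 1024) := by
  rcases Nat.eq_zero_or_pos k with rfl | hk
  · simp [Wd, h.zero]
  · simp [Wd, Nat.digits_def' (by norm_num : 1 < 1024) hk]

theorem Lab.sp (h : Lab gl) (k : ℕ) {x : ℕ} (hx : x < 1024) : Wd gl (sp k x) = gl x * Wd gl k := by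
  simp only [IvT.sp, frn_eq, cn_eq, land_1023, shr_eq, shl_eq, Nat.ble_eq, Nat.beq_eq, Nat.add_eq]
  split_ifs with h1 h2
  · rcases Nat.le_one_iff_eq_zero_or_eq_one.1 h1 with rfl | rfl
    · rw [h.zero, one_mul]
    · rw [h.one, one_mul]
  · rw [h.wd k, h2, h.inv]; norm_num
  · rw [h.wd, show (k * 2 ^ 10 + x) % 1024 = x by omega, show (k * 2 ^ 10 + x) / 1024 = k by omega]

theorem sp_lt {k x B : ℕ} (hk : k < B) (hx : x < 1024) : sp k x < B * 1024 := by
  simp only [IvT.sp, frn_eq, cn_eq, land_1023, shr_eq, shl_eq, Nat.ble_eq, Nat.beq_eq, Nat.add_eq]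
  split_ifs <;> omega

theorem Lab.add (h : Lab gl) (x : ℕ) : ∀ (j a : ℕ), a < 1024 ^ j →
    Wd gl (a + x * 1024 ^ j) = Wd gl a * Wd gl x
  | 0, a, ha => by
    obtain rfl : a = 0 := by omega
    simp [Wd_zero]
  | j + 1, a, ha => by
    rw [pow_succ] at ha
    rw [h.wd, h.wd a, pow_succ, ← mul_assoc x, Nat.add_mul_mod_self_right,
      Nat.add_mul_div_right _ _ (by norm_num), Lab.add h x j _ (by omega), mul_assoc]

theorem Lab.rot (h : Lab gl) {j k : ℕ} (hk : k < 1024 ^ j * 1024) :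
    rot (10 * j) k < 1024 ^ j * 1024 ∧ (Wd gl (rot (10 * j) k) = 1 → Wd gl k = 1) := by
  have e : IvT.rot (10 * j) k = k / 1024 + k % 1024 * 1024 ^ j := by
    rw [IvT.rot, land_1023, shr_eq, shl_eq, pow_mul]; rfl
  have h1 : k / 1024 < 1024 ^ j := by omega
  have h2 : k % 1024 ≤ 1023 := by omega
  rw [e]
  refine ⟨by nlinarith, fun w => ?_⟩
  rw [h.add _ j _ h1, h.wd (k % 1024), Nat.mod_mod, show k % 1024 / 1024 = 0 by omega, Wd_zero,
    mul_one] at w
  rw [h.wd k]
  exact mul_eq_one_comm.1 w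

theorem mi_eq (x y : ℕ) : mi x y = x ∨ mi x y = y := by
  simp only [mi, frn_eq, cn_eq]
  split_ifs <;> simp

theorem Lab.mn (h : Lab gl) {k : ℕ} (hk : k < 2 ^ 50) (w : Wd gl (mn k) = 1) : Wd gl k = 1 := by
  obtain ⟨j, e, hj⟩ : ∃ j, tp k = 10 * j ∧ k < 1024 ^ j * 1024 := by
    simp only [tp, cn_eq, Nat.ble_eq]
    split_ifs
    · exact ⟨4, rfl, by omega⟩
    · exact ⟨3, rfl, by omega⟩
    · exact ⟨2, rfl, by omega⟩
    · exact ⟨1, rfl, by omega⟩
    · exact ⟨0, rfl, by omega⟩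
  obtain ⟨a1, b1⟩ := h.rot hj
  obtain ⟨a2, b2⟩ := h.rot a1
  obtain ⟨a3, b3⟩ := h.rot a2
  obtain ⟨_, b4⟩ := h.rot a3
  simp only [IvT.mn, frn_eq, e] at w
  rcases mi_eq _ _ with q | q <;> rw [q] at w
  · rcases mi_eq _ _ with q | q <;> rw [q] at w
    · rcases mi_eq _ _ with q | q <;> rw [q] at w
      · exact w
      · exact b1 w
    · rcases mi_eq _ _ with q | q <;> rw [q] at w
      · exact b1 (b2 w)
      · exact b1 (b2 (b3 w))
  · exact b1 (b2 (b3 (b4 w)))

theorem Lab.five (h : Lab gl) {k : ℕ} (hk : k < 2 ^ 50) : Wd gl k =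
    gl (dk k 0) * (gl (dk k 10) * (gl (dk k 20) * (gl (dk k 30) * gl (dk k 40)))) := by
  simp only [dk_eq]
  rw [h.wd k, h.wd (k / 1024), h.wd (k / 1024 / 1024), h.wd (k / 1024 / 1024 / 1024),
    h.wd (k / 1024 / 1024 / 1024 / 1024), show k / 1024 / 1024 / 1024 / 1024 / 1024 = 0 by omega,
    Wd_zero, mul_one]
  simp only [Nat.div_div_eq_div_mul]
  norm_num

theorem Lab.rv (h : Lab gl) {k : ℕ} (hk : k < 2 ^ 50) :
    rv k < 2 ^ 50 ∧ Wd gl (rv k) = (Wd gl k)⁻¹ := by
  have b := fun i => iv_lt (dk_lt k i)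
  refine ⟨sp_lt (sp_lt (sp_lt (sp_lt (sp_lt Nat.one_pos (b _)) (b _)) (b _)) (b _)) (b _), ?_⟩
  rw [IvT.rv, h.sp _ (b _), h.sp _ (b _), h.sp _ (b _), h.sp _ (b _), h.sp _ (b _), Wd_zero,
    h.five hk]
  simp only [h.inv]
  group

theorem Lab.okKey (h : Lab gl) {db : Tr} (hdb : ∀ c, Wd gl (db.get c) = 1) {k : ℕ}
    (w : okKey db k = true) : Wd gl k = 1 := by
  simp only [IvT.okKey, cb_eq, bnd_eq, frc_eq, Nat.beq_eq] at w
  split_ifs at w with h0
  · rw [h0, Wd_zero]
  · simp only [Bool.and_eq_true, Nat.ble_eq, Nat.beq_eq] at w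
    have hk : k < 2 ^ 50 := by omega
    have e := hdb (mi (IvT.mn k) (IvT.mn (IvT.rv k)))
    rw [w.2] at e
    rcases mi_eq _ _ with q | q <;> rw [q] at e
    · exact h.mn hk e
    · have := h.mn (h.rv hk).1 e
      rwa [(h.rv hk).2, inv_eq_one] at this

theorem Lab.fin (h : Lab gl) {db : Tr} (hdb : ∀ c, Wd gl (db.get c) = 1) {k : ℕ}
    (w : fin db k = true) : Wd gl k = 1 := by
  simp only [IvT.fin, frc_eq, cb_eq] at w
  split_ifs at w with h0
  exact h.okKey hdb h0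

end Pool.Agent.IvT
end

-- merged part: Pool.Agent.Work.MP_497bf6_gt.Idx
section
/-! From the checks on the table to a labelling that kills the cells. -/

namespace Pool.Agent.IvT

/-- The pairing stored in a table entry. -/
def tabD (a : ℕ) : ℕ → ℕ := fun k => if k < 12 then pt a k else k

theorem tabD_lt (a : ℕ) {k : ℕ} (h : k < 12) : tabD a k = pt a k := if_pos h

theorem nx_pk (e : ℕ) {m q : ℕ} (hm : m < 16) (hq : q < 16) (p : ℕ) :
    nx (pk e m q) p = mv m q p := by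
  have e1 : Nat.land (Nat.shiftRight (pk e m q) 4) 15 = m := by
    simp only [land_15, shr_eq, pk, Nat.add_eq, Nat.mul_eq]; omega
  have e2 : Nat.land (pk e m q) 15 = q := by
    simp only [land_15, pk, Nat.add_eq, Nat.mul_eq]; omega
  simp only [nx, frn_eq, e1, e2, cn_eq, Nat.beq_eq, Nat.ble_eq, mv, Nat.pred_eq_sub_one]
  split_ifs <;> omega

theorem info_spec {a v u w : ℕ} (hD : Dg (tabD a)) (hv : v < 12) (hu : u < 12)
    (h : info a v u = w + 1) : Adj (tabD a) v u ∧ ∀ p, nx w p = fw (tabD a) v u p := by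
  have b1 := hD.lt u hu
  have b2 := hD.lt v hv
  simp only [info, frn_eq, cn_eq, Nat.beq_eq, Nat.ble_eq, ← tabD_lt a hv, ← tabD_lt a hu,
    Nat.succ_eq_add_one, Nat.pred_eq_sub_one] at h
  simp only [fw, src, dst]
  by_cases c1 : tabD a u + 1 = v
  · rw [if_pos c1] at h
    refine ⟨⟨hv, hu, Or.inl c1⟩, fun p => ?_⟩
    rw [← Nat.succ.inj h, nx_pk _ (by omega) (by split_ifs <;> omega), if_pos c1, if_pos c1]
    rfl
  · rw [if_neg c1] at h
    by_cases c2 : tabD a v + 1 = u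
    · rw [if_pos c2] at h
      refine ⟨⟨hv, hu, Or.inr c2⟩, fun p => ?_⟩
      rw [← Nat.succ.inj h, nx_pk _ (by omega) (by split_ifs <;> omega), if_neg c1, if_neg c1]
      rfl
    · rw [if_neg c2] at h
      omega

theorem r1_true {a v u : ℕ} {k : ℕ → Bool} (h : r1 a v u k = true) :
    ∃ w, info a v u = w + 1 ∧ k w = true := by
  unfold r1 at h
  cases e : info a v u with
  | zero => rw [e] at h; exact absurd h (by simp)
  | succ w => rw [e] at h; exact ⟨w, rfl, h⟩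

theorem adj_move {a v u : ℕ} (hD : Dg (tabD a)) (h : Adj (tabD a) v u) :
    ∃ i, i < 22 ∧ mV a i = v ∧ mU a i = u := by
  obtain ⟨hv, hu, h | h⟩ := h
  · refine ⟨2 * tabD a u, by omega, ?_, ?_⟩
    · simp only [mV, cn_eq, land_1, shr_eq, Nat.beq_eq]
      rw [if_pos (by omega)]; omega
    · simp only [mU, cn_eq, land_1, shr_eq, Nat.beq_eq]
      rw [if_pos (by omega), show 2 * tabD a u / 2 ^ 1 = tabD a u by omega,
        ← tabD_lt a (hD.lt u hu), hD.inv]
  · refine ⟨2 * tabD a v + 1, by omega, ?_, ?_⟩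
    · simp only [mV, cn_eq, land_1, shr_eq, Nat.beq_eq]
      rw [if_neg (by omega), show (2 * tabD a v + 1) / 2 ^ 1 = tabD a v by omega,
        ← tabD_lt a (hD.lt v hv), hD.inv]
    · simp only [mU, cn_eq, land_1, shr_eq, Nat.beq_eq]
      rw [if_neg (by omega)]; omega

variable {G : Type} [Group G] (gl : ℕ → G) (tb : ℕ → ℕ) (fd db : Tr)

/-- The label of a slide. -/
noncomputable def gT (D : ℕ → ℕ) (v u : ℕ) : G :=
  gl (lb (info (tb (fd.get (keyF D 12))) v u - 1))

variable {gl tb fd db}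

theorem k1_dg {n : ℕ} (h : k1 tb fd n = true) :
    fd.get (keyF (tabD (tb n)) 12) = n ∧ Dg (tabD (tb n)) := by
  simp only [k1, frc_eq, bnd_eq, Bool.and_eq_true, allLt_iff, Nat.beq_eq, Nat.ble_eq, cb_eq] at h
  obtain ⟨h1, h2, _⟩ := h
  have h3 : ∀ k, k < 12 → pt (tb n) k ≤ 11 ∧ pt (tb n) (pt (tb n) k) = k ∧ pt (tb n) k ≠ k ∧
      pt (tb n) k ≠ k + 1 := fun k hk => by
    obtain ⟨a, b, c⟩ := h2 k hk
    refine ⟨a, b, fun e => ?_, fun e => ?_⟩
    · simp [e] at c
    · simp [e] at c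
  refine ⟨h1, fun k hk => ?_, fun k => ?_, fun k hk => ?_, fun k hk => ?_, fun k hk => ?_⟩
  · rw [tabD_lt _ hk]; have := h3 k hk; omega
  · by_cases hk : k < 12
    · have := h3 k hk
      rw [tabD_lt _ hk, tabD_lt _ (by omega), this.2.1]
    · simp [tabD, hk]
  · rw [tabD_lt _ hk]; exact (h3 k hk).2.2.1
  · rw [tabD_lt _ hk]; exact (h3 k hk).2.2.2
  · exact if_neg (by omega)

theorem k1_step {n v u w : ℕ} (h : k1 tb fd n = true) (ha : Adj (tabD (tb n)) v u)
    (hw : info (tb n) v u = w + 1) :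
    tg w < 1485 ∧ sD (tabD (tb n)) v u = tabD (tb (tg w)) := by
  have hD := (k1_dg h).2
  obtain ⟨i, hi, e1, e2⟩ := adj_move hD ha
  simp only [k1, frc_eq, bnd_eq, Bool.and_eq_true, allLt_iff] at h
  have h3 := h.2.2 i hi
  rw [e1, e2] at h3
  obtain ⟨w', hw', h4⟩ := r1_true h3
  obtain rfl : w' = w := by omega
  simp only [Bool.and_eq_true, allLt_iff, Nat.beq_eq, Nat.ble_eq] at h4
  have hn := (info_spec hD ha.1 ha.2.1 hw).2
  refine ⟨by omega, funext fun k => ?_⟩
  by_cases hk : k < 12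
  · have hb := bw_lt hD ha hk
    have := h4.2 _ hb
    rw [hn, hn, fw_bw, ← tabD_lt _ hb] at this
    rw [tabD_lt _ hk, this]; rfl
  · have o1 : bw (tabD (tb n)) v u k = k := mv_out (dst_lt hD ha) (src_lt hD ha) (by omega)
    have o2 : fw (tabD (tb n)) v u k = k := mv_out (src_lt hD ha) (dst_lt hD ha) (by omega)
    simp only [sD, o1, hD.out k (by omega), o2]
    exact (if_neg hk).symm

section
variable (H : ∀ n, n < 1485 → k1 tb fd n = true)
include H

theorem r1_spec {n v u : ℕ} {k : ℕ → Bool} (hn : n < 1485) (hv : v < 12) (hu : u < 12)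
    (h : r1 (tb n) v u k = true) : ∃ w, k w = true ∧ Adj (tabD (tb n)) v u ∧
      gT gl tb fd (tabD (tb n)) v u = gl (lb w) ∧ tg w < 1485 ∧
      sD (tabD (tb n)) v u = tabD (tb (tg w)) ∧ (∀ p, nx w p = fw (tabD (tb n)) v u p) ∧
      ∀ p, p < 12 → fw (tabD (tb n)) v u p < 12 := by
  obtain ⟨w, hw, hk⟩ := r1_true h
  obtain ⟨h1, hD⟩ := k1_dg (H n hn)
  obtain ⟨ha, hp⟩ := info_spec hD hv hu hw
  obtain ⟨h2, h3⟩ := k1_step (H n hn) ha hw
  exact ⟨w, hk, ha, by rw [gT, h1, hw]; rfl, h2, h3, hp, fun p q => fw_lt hD ha q⟩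

theorem r2_spec {n v u v' u' : ℕ} {k : ℕ → ℕ → Bool} (hn : n < 1485) (hv : v < 12) (hu : u < 12)
    (hv' : v' < 12) (hu' : u' < 12) (h : r2 tb (tb n) v u v' u' k = true) :
    ∃ w w', k w w' = true ∧ okrun (tabD (tb n)) id [(v, u), (v', u')] ∧
      run (gT gl tb fd) (tabD (tb n)) id [(v, u), (v', u')] = gl (lb w) * gl (lb w') := by
  obtain ⟨w, hk, a1, g1, t1, s1, p1, l1⟩ := r1_spec (gl := gl) H hn hv hu h
  simp only [frc_eq, p1] at hk
  obtain ⟨w', hk', a2, g2, _⟩ := r1_spec (gl := gl) H t1 (l1 _ hv') (l1 _ hu') hk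
  rw [← s1] at a2 g2
  exact ⟨w, w', hk', ⟨a1, a2, trivial⟩, by simp only [run, id, g1, g2, mul_one]⟩

theorem r3_spec {n v u v' u' v'' u'' : ℕ} {k : ℕ → ℕ → ℕ → Bool} (hn : n < 1485) (hv : v < 12)
    (hu : u < 12) (hv' : v' < 12) (hu' : u' < 12) (hv'' : v'' < 12) (hu'' : u'' < 12)
    (h : r3 tb (tb n) v u v' u' v'' u'' k = true) :
    ∃ w w' w'', k w w' w'' = true ∧ okrun (tabD (tb n)) id [(v, u), (v', u'), (v'', u'')] ∧
      run (gT gl tb fd) (tabD (tb n)) id [(v, u), (v', u'), (v'', u'')] =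
        gl (lb w) * (gl (lb w') * gl (lb w'')) := by
  obtain ⟨w, hk, a1, g1, t1, s1, p1, l1⟩ := r1_spec (gl := gl) H hn hv hu h
  simp only [frc_eq, p1] at hk
  obtain ⟨w', w'', hk', a2, g2⟩ :=
    r2_spec (gl := gl) H t1 (l1 _ hv') (l1 _ hu') (l1 _ hv'') (l1 _ hu'') hk
  rw [← s1] at a2 g2
  exact ⟨w, w', w'', hk', ⟨a1, a2⟩, by rw [← g1, ← g2]; rfl⟩

variable (hl : Lab gl) (hdb : ∀ c, Wd gl (db.get c) = 1)
include hl hdb

theorem c20_spec {n v u v' u' : ℕ} (hn : n < 1485) (hv : v < 12) (hu : u < 12)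
    (hv' : v' < 12) (hu' : u' < 12) (h : c20 tb db (tb n) v u v' u' = true) :
    Cell (gT gl tb fd) (tabD (tb n)) [(v, u), (v', u')] [] := by
  obtain ⟨w, w', hk, o, g⟩ := r2_spec (gl := gl) H hn hv hu hv' hu' h
  have e := hl.fin hdb hk
  simp only [hl.sp _ (iv_lt (lb_lt _)), hl.inv, Wd_zero] at e
  refine ⟨o, trivial, ?_⟩
  rw [g]
  show _ = (1 : G)
  rw [← inv_eq_one, ← e]; group

theorem c21_spec {n v u v' u' x y : ℕ} (hn : n < 1485) (hv : v < 12) (hu : u < 12)
    (hv' : v' < 12) (hu' : u' < 12) (hx : x < 12) (hy : y < 12)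
    (h : c21 tb db (tb n) v u v' u' x y = true) :
    Cell (gT gl tb fd) (tabD (tb n)) [(v, u), (v', u')] [(x, y)] := by
  obtain ⟨w, w', hk, o, g⟩ := r2_spec (gl := gl) H hn hv hu hv' hu' h
  obtain ⟨z, hk', a2, g2, _⟩ := r1_spec (gl := gl) H hn hx hy hk
  have e := hl.fin hdb hk'
  simp only [hl.sp _ (iv_lt (lb_lt _)), hl.sp _ (lb_lt _), hl.inv, Wd_zero] at e
  refine ⟨o, ⟨a2, trivial⟩, ?_⟩
  rw [g]
  simp only [run, id, g2, mul_one] at e ⊢
  rw [← mul_one (gl (lb w) * gl (lb w')), ← e]; group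

theorem c22_spec {n v u v' u' : ℕ} (hn : n < 1485) (hv : v < 12) (hu : u < 12)
    (hv' : v' < 12) (hu' : u' < 12) (h : c22 tb db (tb n) v u v' u' = true) :
    Cell (gT gl tb fd) (tabD (tb n)) [(v, u), (v', u')] [(v', u'), (v, u)] := by
  obtain ⟨w, w', hk, o, g⟩ := r2_spec (gl := gl) H hn hv hu hv' hu' h
  obtain ⟨z, z', hk', o', g'⟩ := r2_spec (gl := gl) H hn hv' hu' hv hu hk
  have e := hl.fin hdb hk'
  simp only [hl.sp _ (iv_lt (lb_lt _)), hl.sp _ (lb_lt _), hl.inv, Wd_zero] at e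
  refine ⟨o, o', ?_⟩
  rw [g, g', ← mul_one (gl (lb w) * gl (lb w')), ← e]; group

theorem c32_spec {n v u v' u' v'' u'' x y x' y' : ℕ} (hn : n < 1485) (hv : v < 12) (hu : u < 12)
    (hv' : v' < 12) (hu' : u' < 12) (hv'' : v'' < 12) (hu'' : u'' < 12) (hx : x < 12)
    (hy : y < 12) (hx' : x' < 12) (hy' : y' < 12)
    (h : c32 tb db (tb n) v u v' u' v'' u'' x y x' y' = true) :
    Cell (gT gl tb fd) (tabD (tb n)) [(v, u), (v', u'), (v'', u'')] [(x, y), (x', y')] := by
  obtain ⟨w, w', w'', hk, o, g⟩ := r3_spec (gl := gl) H hn hv hu hv' hu' hv'' hu'' h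
  obtain ⟨z, z', hk', o', g'⟩ := r2_spec (gl := gl) H hn hx hy hx' hy' hk
  have e := hl.fin hdb hk'
  simp only [hl.sp _ (iv_lt (lb_lt _)), hl.sp _ (lb_lt _), hl.inv, Wd_zero] at e
  refine ⟨o, o', ?_⟩
  rw [g, g', ← mul_one (gl (lb w) * (gl (lb w') * gl (lb w''))), ← e]; group

theorem asym_spec {n v u v' u' : ℕ} (hn : n < 1485) (hv : v < 12) (hu : u < 12)
    (hv' : v' < 12) (hu' : u' < 12) (c : u = v' ∨ u = tabD (tb n) v')
    (h : asym tb db (tb n) v u v' u' = true) : PairOK (gT gl tb fd) (tabD (tb n)) v u v' u' := by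
  have hD := (k1_dg (H n hn)).2
  simp only [asym, cb_eq, Nat.beq_eq] at h
  refine Or.inr <| Or.inr <| Or.inr <| Or.inr <| Or.inr <| Or.inr ?_
  split_ifs at h with h1 h2
  · exact Or.inl ⟨h1, c32_spec H hl hdb hn hu hu' hv hu' hv hu hv hu hu hu' h⟩
  · refine Or.inr (Or.inl ⟨?_, Or.inl (c32_spec H hl hdb hn hv hu hv' hu' hv hu' hv' hu' hv hu h2)⟩)
    rw [c.resolve_left (Ne.symm h1), hD.inv]
  · refine Or.inr (Or.inl ⟨?_, Or.inr (c32_spec H hl hdb hn hv hu hv hu' hv' hu' hv' hu' hv hu h)⟩)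
    rw [c.resolve_left (Ne.symm h1), hD.inv]

theorem both_spec {n v u v' u' : ℕ} (hn : n < 1485) (hv : v < 12) (hu : u < 12)
    (hv' : v' < 12) (hu' : u' < 12)
    (h : both tb db (tb n) v u (pt (tb n) v) (pt (tb n) u) v' u' = true) :
    PairOK (gT gl tb fd) (tabD (tb n)) v u v' u' ∧ PairOK (gT gl tb fd) (tabD (tb n)) v' u' v u := by
  have hD := (k1_dg (H n hn)).2
  simp only [both, frc_eq, cb_eq, bor_eq, cf, bnd_eq, Bool.or_eq_true, Bool.and_eq_true,
    Nat.beq_eq, ← tabD_lt _ hv, ← tabD_lt _ hu, ← tabD_lt _ hv', ← tabD_lt _ hu'] at h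
  split_ifs at h with h1 h2 h3 h4 h5 h6
  · rcases h1 with h1 | h1
    · have c : Conf (tabD (tb n)) v u v' u' := ⟨h1.2.2, h1.2.1, h1.1⟩
      exact ⟨Or.inr <| Or.inr <| Or.inr <| Or.inl c, Or.inr <| Or.inr <| Or.inr <| Or.inr <| Or.inl c⟩
    · have c : Conf (tabD (tb n)) v' u' v u := ⟨h1.2.2, h1.2.1, h1.1⟩
      exact ⟨Or.inr <| Or.inr <| Or.inr <| Or.inr <| Or.inl c, Or.inr <| Or.inr <| Or.inr <| Or.inl c⟩
  · exact ⟨Or.inr (h2.imp_right Or.inl), Or.inr (h3.imp_right Or.inl)⟩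
  · exact ⟨Or.inr (h2.imp_right Or.inl), asym_spec H hl hdb hn hv' hu' hv hu h2 h⟩
  · exact ⟨asym_spec H hl hdb hn hv hu hv' hu' h4 h, Or.inr (h4.imp_right Or.inl)⟩
  · subst h5
    have c := c32_spec H hl hdb hn hv hu hu' hu hv hu' hv hu' hu' hu h
    exact ⟨Or.inr <| Or.inr <| Or.inr <| Or.inr <| Or.inr <| Or.inl ⟨rfl, h6, Or.inl c⟩,
      Or.inr <| Or.inr <| Or.inr <| Or.inr <| Or.inr <| Or.inl
        ⟨rfl, fun e => h6 (by rw [e, hD.inv]), Or.inr c⟩⟩
  · have c := c22_spec H hl hdb hn hv hu hv' hu' h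
    push Not at h2 h4
    exact ⟨Or.inr <| Or.inr <| Or.inr <| Or.inr <| Or.inr <| Or.inr <| Or.inr <| Or.inr
        ⟨h5, h4.1.symm, fun e => h4.2 (by rw [e, hD.inv]), c⟩,
      Or.inr <| Or.inr <| Or.inr <| Or.inr <| Or.inr <| Or.inr <| Or.inr <| Or.inr
        ⟨Ne.symm h5, h2.1.symm, fun e => h2.2 (by rw [e, hD.inv]), c.2.1, c.1, c.2.2.symm⟩⟩

end

/-- The labelled slide system given by the tables. -/
noncomputable def mkSys (hl : Lab gl) (hdb : ∀ c, Wd gl (db.get c) = 1)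
    (H : ∀ n, n < 1485 → k1 tb fd n = true) (H2 : ∀ n, n < 1485 → k2 tb db n = true)
    (h0 : tabD (tb 0) = D0) : Sys G where
  T := {D | ∃ n, n < 1485 ∧ D = tabD (tb n)}
  g := gT gl tb fd
  base := ⟨0, by norm_num, h0.symm⟩
  dg := by rintro D ⟨n, hn, rfl⟩; exact (k1_dg (H n hn)).2
  closed := by
    rintro D ⟨n, hn, rfl⟩ v u ha
    have hD := (k1_dg (H n hn)).2
    obtain ⟨i, hi, e1, e2⟩ := adj_move hD ha
    have h := H n hn
    simp only [k1, frc_eq, bnd_eq, Bool.and_eq_true, allLt_iff] at h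
    have h3 := h.2.2 i hi
    rw [e1, e2] at h3
    obtain ⟨w, hw, _⟩ := r1_true h3
    exact ⟨_, k1_step (H n hn) ha hw⟩
  cInv := by
    rintro D ⟨n, hn, rfl⟩ v u ha
    have hD := (k1_dg (H n hn)).2
    obtain ⟨i, hi, e1, e2⟩ := adj_move hD ha
    have h := H2 n hn
    simp only [k2, frc_eq, bnd_eq, Bool.and_eq_true, allLt_iff] at h
    have h3 := (h i hi).1
    rw [e1, e2, ← tabD_lt _ ha.2.1] at h3
    exact c20_spec H hl hdb hn ha.1 ha.2.1 ha.1 (hD.lt u ha.2.1) h3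
  cTri := by
    rintro D ⟨n, hn, rfl⟩ v u ha
    have hD := (k1_dg (H n hn)).2
    obtain ⟨i, hi, e1, e2⟩ := adj_move hD ha
    have h := H2 n hn
    simp only [k2, frc_eq, bnd_eq, Bool.and_eq_true, allLt_iff] at h
    have h3 := (h i hi).2.1
    rw [e1, e2, ← tabD_lt _ ha.2.1] at h3
    exact c21_spec H hl hdb hn ha.1 ha.2.1 (hD.lt u ha.2.1) ha.1 ha.2.1 ha.1 h3
  cPair := by
    rintro D ⟨n, hn, rfl⟩ v u v' u' ha ha'
    have hD := (k1_dg (H n hn)).2
    obtain ⟨i, hi, e1, e2⟩ := adj_move hD ha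
    obtain ⟨j, hj, f1, f2⟩ := adj_move hD ha'
    have h := H2 n hn
    simp only [k2, frc_eq, bnd_eq, Bool.and_eq_true, allLt_iff] at h
    rcases lt_trichotomy j i with l | rfl | l
    · have h3 := (h i hi).2.2 j l
      rw [e1, e2, f1, f2] at h3
      exact (both_spec H hl hdb hn ha.1 ha.2.1 ha'.1 ha'.2.1 h3).1
    · exact Or.inl ⟨f1.symm.trans e1, f2.symm.trans e2⟩
    · have h3 := (h j hj).2.2 i l
      rw [e1, e2, f1, f2] at h3
      exact (both_spec H hl hdb hn ha'.1 ha'.2.1 ha.1 ha.2.1 h3).2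

end Pool.Agent.IvT
end

-- merged part: Pool.Agent.Work.MP_497bf6_gt.GUni
section
/-! Plan. `rowIs_sound`: unfold. `chkU_sound`: `p ↦ sbk (d p)` is injective on `Fin 28`, hence bijective; the linear part
`U v (p, i) = ∑ j, ent (d p) i j * v (sbk (d p), j) / 4` preserves the inner product (or the norm) since each block satisfies
`Aᴴ A = 16`; `LinearIsometry.toLinearIsometryEquiv`, then `AffineIsometryEquiv.mk'` or composition with `constVAdd`. -/

namespace Pool.Agent.IvT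

theorem rowIs_sound {d : ℕ → ℕ} {p : Fin 28} {i : Fin 8} {z : GaussianInt}
    (h : rowIs d p i z = true) (v : V) :
    fmap d v (p, i) = v (p, i) + GaussianInt.toComplex z / 4 := by
  simp only [rowIs, bnd_eq, Bool.and_eq_true, Nat.beq_eq, geq_iff, allLt_iff] at h
  obtain ⟨h1, h2, h3⟩ := h
  have e : (⟨sbk (d p), sbk_lt _⟩ : Fin 28) = p := Fin.ext h1
  simp only [fmap, e, h2]
  rw [Finset.sum_eq_single i]
  · rw [h3 i i.2, if_pos rfl, map_ofNat]
    ring
  · intro j _ hj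
    rw [h3 j j.2, if_neg (fun h => hj (Fin.ext h)), map_zero, zero_mul]
  · intro hi
    exact absurd (Finset.mem_univ i) hi

theorem GUni_iso (c : Fin 28 → Fin 8 → Fin 8 → ℂ) (σ : Fin 28 → Fin 28) (hσ : Function.Bijective σ)
    (hc : ∀ p j k, ∑ i, (starRingEnd ℂ) (c p i j) * c p i k = if j = k then 16 else 0)
    (t : Fin 28 × Fin 8 → ℂ) : ∃ e : V ≃ᵃⁱ[ℂ] V, ∀ v, e v =
      WithLp.toLp 2 fun x => (∑ j, c x.1 x.2 j * v (σ x.1, j) + t x) / 4 := by
  let L : V →ₗ[ℂ] V :=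
    { toFun := fun v => WithLp.toLp 2 fun x => (∑ j, c x.1 x.2 j * v (σ x.1, j)) / 4
      map_add' := fun v w => by
        ext x
        simp only [PiLp.add_apply, mul_add, Finset.sum_add_distrib, add_div]
      map_smul' := fun a v => by
        ext x
        simp only [PiLp.smul_apply, smul_eq_mul, RingHom.id_apply, mul_left_comm _ a,
          ← Finset.mul_sum, mul_div_assoc] }
  have hL : ∀ v x, L v x = (∑ j, c x.1 x.2 j * v (σ x.1, j)) / 4 := fun _ _ => rfl
  have hin : ∀ v w, inner ℂ (L v) (L w) = inner ℂ v w := by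
    intro v w
    simp only [PiLp.inner_apply, RCLike.inner_apply', hL, Fintype.sum_prod_type]
    rw [← hσ.sum_comp fun p => ∑ j, (starRingEnd ℂ) (v (p, j)) * w (p, j)]
    refine Finset.sum_congr rfl fun p _ => ?_
    have e : ∀ i, (starRingEnd ℂ) ((∑ j, c p i j * v (σ p, j)) / 4) *
        ((∑ k, c p i k * w (σ p, k)) / 4) = ∑ j, ∑ k,
          (starRingEnd ℂ) (c p i j) * c p i k * ((starRingEnd ℂ) (v (σ p, j)) * w (σ p, k) / 16) := by
      intro i
      rw [map_div₀, map_ofNat, map_sum, div_mul_div_comm, Finset.sum_mul_sum, Finset.sum_div]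
      refine Finset.sum_congr rfl fun j _ => ?_
      rw [Finset.sum_div]
      refine Finset.sum_congr rfl fun k _ => ?_
      rw [map_mul]
      ring
    simp only [e]
    rw [Finset.sum_comm]
    refine Finset.sum_congr rfl fun j _ => ?_
    rw [Finset.sum_comm]
    simp only [← Finset.sum_mul, hc, ite_mul, zero_mul, Finset.sum_ite_eq, Finset.mem_univ, if_true]
    ring
  let U := (L.isometryOfInner hin).toLinearIsometryEquiv rfl
  refine ⟨U.toAffineIsometryEquiv.trans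
    (AffineIsometryEquiv.constVAdd ℂ V (WithLp.toLp 2 fun x => t x / 4 : V)), fun v => ?_⟩
  ext x
  change t x / 4 + L v x = _
  rw [hL]
  ring

theorem chkU_sound {d d' : ℕ → ℕ} (h : chkU d d' = true) :
    ∃ e : V ≃ᵃⁱ[ℂ] V, ∀ v, e v = fmap d v := by
  simp only [chkU, frc_eq, bnd_eq, Bool.and_eq_true, Nat.beq_eq, geq_iff, allLt_iff] at h
  refine GUni_iso (fun p i j => GaussianInt.toComplex (ent (d p) i j))
    (fun p => ⟨sbk (d p), sbk_lt _⟩) (Finite.injective_iff_bijective.1 fun p q e => ?_)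
    (fun p j k => ?_) fun x => GaussianInt.toComplex (ent (d x.1) x.2 8)
  · have e' : sbk (d p) = sbk (d q) := congrArg Fin.val e
    exact Fin.ext (by rw [← (h p p.2).1, ← (h q q.2).1, e'])
  · have h1 := congrArg GaussianInt.toComplex ((h p p.2).2 j j.2 k k.2)
    have e : ∀ f : ℕ → GaussianInt, ((List.range 8).map f).sum = ∑ i : Fin 8, f i := fun f =>
      (Finset.sum_range f ▸ rfl : ((List.range 8).map f).sum = ∑ i : Fin 8, f i)
    rw [e, map_sum, apply_ite GaussianInt.toComplex, map_ofNat, map_zero] at h1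
    simpa only [map_mul, GaussianInt.toComplex_star, Fin.val_inj] using h1

end Pool.Agent.IvT
end

-- merged part: Pool.Agent.Work.MP_497bf6_gt.Chk.All
section
/-! The results of the checks, collected. -/

namespace Pool.Agent.IvT

theorem rng_spec {lo n : ℕ} {f : ℕ → Bool} (h : rng lo n f = true) {i : ℕ} (h1 : lo ≤ i)
    (h2 : i < lo + n) : f i = true := by
  have := (allLt_iff _ _).1 h (i - lo) (by omega)
  rwa [frc_eq, show Nat.add lo (i - lo) = i by simp only [Nat.add_eq]; omega] at this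

theorem db_all : db.all (relK dat) = true := (Tr.all_nd _ (Tr.all_nd _ (Tr.all_nd _ (Tr.all_nd _ (Tr.all_nd _ kr0 kr1) (Tr.all_nd _ kr2 kr3)) (Tr.all_nd _ (Tr.all_nd _ kr4 kr5) (Tr.all_nd _ kr6 kr7))) (Tr.all_nd _ (Tr.all_nd _ (Tr.all_nd _ kr8 kr9) (Tr.all_nd _ kr10 kr11)) (Tr.all_nd _ (Tr.all_nd _ kr12 kr13) (Tr.all_nd _ kr14 kr15)))) (Tr.all_nd _ (Tr.all_nd _ (Tr.all_nd _ (Tr.all_nd _ kr16 kr17) (Tr.all_nd _ kr18 kr19)) (Tr.all_nd _ (Tr.all_nd _ kr20 kr21) (Tr.all_nd _ kr22 kr23))) (Tr.all_nd _ (Tr.all_nd _ (Tr.all_nd _ kr24 kr25) (Tr.all_nd _ kr26 kr27)) (Tr.all_nd _ (Tr.all_nd _ kr28 kr29) (Tr.all_nd _ kr30 kr31)))))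

theorem k12_all (n : ℕ) (h : n < 1485) : k1 tb fd n = true ∧ k2 tb db n = true := by
  suffices bnd (k1 tb fd n) (k2 tb db n) = true by simpa [bnd_eq] using this
  rcases Nat.lt_or_ge n 45 with _ | _
  · exact rng_spec ka0 (by omega) (by omega)
  rcases Nat.lt_or_ge n 90 with _ | _
  · exact rng_spec ka1 (by omega) (by omega)
  rcases Nat.lt_or_ge n 135 with _ | _
  · exact rng_spec ka2 (by omega) (by omega)
  rcases Nat.lt_or_ge n 180 with _ | _
  · exact rng_spec ka3 (by omega) (by omega)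
  rcases Nat.lt_or_ge n 225 with _ | _
  · exact rng_spec ka4 (by omega) (by omega)
  rcases Nat.lt_or_ge n 270 with _ | _
  · exact rng_spec ka5 (by omega) (by omega)
  rcases Nat.lt_or_ge n 315 with _ | _
  · exact rng_spec ka6 (by omega) (by omega)
  rcases Nat.lt_or_ge n 360 with _ | _
  · exact rng_spec ka7 (by omega) (by omega)
  rcases Nat.lt_or_ge n 405 with _ | _
  · exact rng_spec ka8 (by omega) (by omega)
  rcases Nat.lt_or_ge n 450 with _ | _
  · exact rng_spec ka9 (by omega) (by omega)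
  rcases Nat.lt_or_ge n 495 with _ | _
  · exact rng_spec ka10 (by omega) (by omega)
  rcases Nat.lt_or_ge n 540 with _ | _
  · exact rng_spec ka11 (by omega) (by omega)
  rcases Nat.lt_or_ge n 585 with _ | _
  · exact rng_spec ka12 (by omega) (by omega)
  rcases Nat.lt_or_ge n 630 with _ | _
  · exact rng_spec ka13 (by omega) (by omega)
  rcases Nat.lt_or_ge n 675 with _ | _
  · exact rng_spec ka14 (by omega) (by omega)
  rcases Nat.lt_or_ge n 720 with _ | _
  · exact rng_spec ka15 (by omega) (by omega)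
  rcases Nat.lt_or_ge n 765 with _ | _
  · exact rng_spec ka16 (by omega) (by omega)
  rcases Nat.lt_or_ge n 810 with _ | _
  · exact rng_spec ka17 (by omega) (by omega)
  rcases Nat.lt_or_ge n 855 with _ | _
  · exact rng_spec ka18 (by omega) (by omega)
  rcases Nat.lt_or_ge n 900 with _ | _
  · exact rng_spec ka19 (by omega) (by omega)
  rcases Nat.lt_or_ge n 945 with _ | _
  · exact rng_spec ka20 (by omega) (by omega)
  rcases Nat.lt_or_ge n 990 with _ | _
  · exact rng_spec ka21 (by omega) (by omega)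
  rcases Nat.lt_or_ge n 1035 with _ | _
  · exact rng_spec ka22 (by omega) (by omega)
  rcases Nat.lt_or_ge n 1080 with _ | _
  · exact rng_spec ka23 (by omega) (by omega)
  rcases Nat.lt_or_ge n 1125 with _ | _
  · exact rng_spec ka24 (by omega) (by omega)
  rcases Nat.lt_or_ge n 1170 with _ | _
  · exact rng_spec ka25 (by omega) (by omega)
  rcases Nat.lt_or_ge n 1215 with _ | _
  · exact rng_spec ka26 (by omega) (by omega)
  rcases Nat.lt_or_ge n 1260 with _ | _
  · exact rng_spec ka27 (by omega) (by omega)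
  rcases Nat.lt_or_ge n 1305 with _ | _
  · exact rng_spec ka28 (by omega) (by omega)
  rcases Nat.lt_or_ge n 1350 with _ | _
  · exact rng_spec ka29 (by omega) (by omega)
  rcases Nat.lt_or_ge n 1395 with _ | _
  · exact rng_spec ka30 (by omega) (by omega)
  rcases Nat.lt_or_ge n 1440 with _ | _
  · exact rng_spec ka31 (by omega) (by omega)
  exact rng_spec ka32 (by omega) (by omega)

theorem inv_all (m : ℕ) (h : m < 512) : invK dat m = true := by
  rcases Nat.lt_or_ge m 128 with _ | _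
  · exact rng_spec ki0 (by omega) (by omega)
  rcases Nat.lt_or_ge m 256 with _ | _
  · exact rng_spec ki1 (by omega) (by omega)
  rcases Nat.lt_or_ge m 384 with _ | _
  · exact rng_spec ki2 (by omega) (by omega)
  exact rng_spec ki3 (by omega) (by omega)

end Pool.Agent.IvT
end
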