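import Pool.Agent.Work.MP_497bf6_gt.Chk.A8

namespace Pool.Agent.IvT

theorem ka12 : rng 540 45 (fun n => bnd (k1 tb fd n) (k2 tb db n)) = true := by decide +kernel

end Pool.Agent.IvT
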