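import Pool.Agent.Work.MP_497bf6_gt.Chk.R0

namespace Pool.Agent.IvT

theorem kr2 : db2.all (relK dat) = true := by decide +kernel

end Pool.Agent.IvT
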